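import Pool.Agent.U615.RR.C

/-!
# Semiclassical bounds for all radial potentials in dimension at least six

For all radial potentials `V` on `ℝ^d`, `d ≥ 6`, and all `γ ≥ 1` the Lieb-Thirring ratio is at most `1`:
`∑ |e_j|^γ ≤ L^cl_{γ,d} ∫ V_-^(γ + d/2)`, so that `R_d^rad(γ) ≤ 1`. The same holds for all potentials
`V(|x|, y)` on `ℝ^k × ℝ^m` with `k ≥ 6`.

Proof: for `γ = 1` and orthonormal systems this is the theorem of `Pool.Agent.U281.CP` (in the results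
folder of `MP_cfe56d_mp`); orthonormal families of almost minimizing functions (Lieb and Thirring) give
the min-max values, and the argument of Aizenman and Lieb gives `γ > 1`, since the potentials
`-(V + τ)_-` have the same symmetry.
-/

set_option autoImplicit false

open MeasureTheory Real

namespace Pool.Agent.Results.MP_d5a362_mp.RadialMoments

/-- `u` belongs to the Sobolev space `H¹(ℝ^d; ℂ)` and has the weak partial derivatives `g k`. -/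
structure IsSobolev {d : ℕ} (u : (Fin d → ℝ) → ℂ) (g : Fin d → (Fin d → ℝ) → ℂ) : Prop where
  memLp : MemLp u 2 volume
  memLp_deriv : ∀ k, MemLp (g k) 2 volume
  weak : ∀ k (φ : (Fin d → ℝ) → ℝ), ContDiff ℝ (⊤ : ℕ∞) φ → HasCompactSupport φ →
    ∫ x, u x * (fderiv ℝ φ x (Pi.single k 1) : ℂ) = - ∫ x, g k x * (φ x : ℂ)

/-- `u 0, …, u n` are functions in `H¹(ℝ^d; ℂ)` with weak gradients `g 0, …, g n`, orthonormal
in `L²(ℝ^d; ℂ)`. -/
def Trial {d n : ℕ} (u : Fin (n + 1) → (Fin d → ℝ) → ℂ)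
    (g : Fin (n + 1) → Fin d → (Fin d → ℝ) → ℂ) : Prop :=
  (∀ i, IsSobolev (u i) (g i)) ∧
    ∀ i j, ∫ x, (starRingEnd ℂ) (u i x) * u j x = if i = j then 1 else 0

/-- The `(n + 1)`-th min-max value `e_n(V)` of `-Δ + V`: the infimum of the real numbers `lam` such
that on some `(n + 1)`-dimensional space of functions in `H¹`, given by an orthonormal basis
`u 0, …, u n`, the form is at most `lam` times the square of the norm, that is,
`∫ |∇v|² + ∫ V |v|² ≤ lam ∑ |c_i|²` for all `v = ∑ c_i u_i`. -/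
noncomputable def minMax {d : ℕ} (V : (Fin d → ℝ) → ℝ) (n : ℕ) : ℝ :=
  sInf {lam : ℝ | ∃ (u : Fin (n + 1) → (Fin d → ℝ) → ℂ)
    (g : Fin (n + 1) → Fin d → (Fin d → ℝ) → ℂ), Trial u g ∧
    ∀ c : Fin (n + 1) → ℂ, (∫ x, ∑ k, ‖∑ i, c i * g i k x‖ ^ 2) +
      ∫ x, V x * ‖∑ i, c i * u i x‖ ^ 2 ≤ lam * ∑ i, ‖c i‖ ^ 2}

/-- The semiclassical constant `L^cl_{γ,d}`: the phase space integral of `|p² + V|_-^γ` is
`L^cl_{γ,d} ∫ V_-^(γ + d/2)`. -/
noncomputable def Lcl (γ : ℝ) (d : ℕ) : ℝ :=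
  Gamma (γ + 1) / ((4 * π) ^ ((d:ℝ) / 2) * Gamma (γ + 1 + d / 2))

/-- The Lieb-Thirring ratios `R_d(γ, V)` of the potentials `V ∈ L^(γ + d/2)` in the class `S` are at
most `c`: `∑ |e_j|^γ ≤ c L^cl_{γ,d} ∫ V_-^(γ + d/2)`. -/
def RatioLe (d : ℕ) (γ c : ℝ) (S : Set ((Fin d → ℝ) → ℝ)) : Prop :=
  ∀ V ∈ S, MemLp V (ENNReal.ofReal (γ + (d:ℝ) / 2)) → ∀ N : ℕ,
    ∑ n ∈ Finset.range N, (max (-minMax V n) 0) ^ γ ≤
      c * (Lcl γ d * ∫ x, (max (-V x) 0) ^ (γ + (d:ℝ) / 2))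

/-- The potentials `v(|x|)` on `ℝ^d`, `v` measurable. -/
def Radial (d : ℕ) : Set ((Fin d → ℝ) → ℝ) :=
  {V | ∃ v : ℝ → ℝ, Measurable v ∧ ∀ x, V x = v (√(∑ i, x i ^ 2))}

/-- The potentials `v(|x|, y)` on `ℝ^k × ℝ^m`, `v` measurable. -/
def Cylindrical (k m : ℕ) : Set ((Fin (k + m) → ℝ) → ℝ) :=
  {V | ∃ v : ℝ × (Fin m → ℝ) → ℝ, Measurable v ∧ ∀ z, V z =
    v (√(∑ i : Fin k, z (Fin.castAdd m i) ^ 2), fun j => z (Fin.natAdd k j))}

/-- The optimal ratio for the class `S`: the least `c ≥ 0` which bounds all ratios (`R_d(γ)` for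
`S = univ`, `R_d^rad(γ)` for `S = Radial d`). -/
noncomputable def R (d : ℕ) (γ : ℝ) (S : Set ((Fin d → ℝ) → ℝ)) : ℝ :=
  sInf {c : ℝ | 0 ≤ c ∧ RatioLe d γ c S}

/-- **Lieb-Thirring ratios of radial and cylindrical potentials.** For `γ ≥ 1` the ratio is at most
`1` (1) for all radial potentials in dimension `d ≥ 6`, (2) for all potentials `v(|x|, y)` on
`ℝ^k × ℝ^m` with `k ≥ 6`. (3) So if in a dimension `d ≥ 6` the ratio of one potential exceeds `1` for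
some `γ ≥ 1` with `R_d(γ)` finite, then `R_d^rad(γ) ≤ 1 < R_d(γ)`. -/
theorem result :
    (∀ (d : ℕ) (γ : ℝ), 6 ≤ d → 1 ≤ γ → RatioLe d γ 1 (Radial d)) ∧
    (∀ (k m : ℕ) (γ : ℝ), 6 ≤ k → 1 ≤ γ → RatioLe (k + m) γ 1 (Cylindrical k m)) ∧
    (∀ (d : ℕ) (γ : ℝ), 6 ≤ d → 1 ≤ γ → (∃ c : ℝ, 0 ≤ c ∧ RatioLe d γ c Set.univ) →
      ¬ RatioLe d γ 1 Set.univ → R d γ (Radial d) ≤ 1 ∧ 1 < R d γ Set.univ) := by
  have hS : ∀ {d : ℕ} {u : (Fin d → ℝ) → ℂ} {g : Fin d → (Fin d → ℝ) → ℂ},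
      IsSobolev u g ↔ LTd.WGradC u g := fun {d u g} =>
    ⟨fun h => ⟨h.1, h.2, h.3⟩, fun h => ⟨h.1, h.2, h.3⟩⟩
  have hM : ∀ {d : ℕ} (V : (Fin d → ℝ) → ℝ) (n : ℕ),
      minMax V n = Pool.Agent.U280.SM.mmP (fun _ => True) V n := by
    intro d V n
    rw [← Pool.Agent.U280.SM.mmF_eq (fun _ => True) (fun _ _ _ _ => trivial)
      (fun _ _ _ _ => trivial) V n]
    unfold minMax Pool.Agent.U280.SM.mmF Trial
    simp only [hS, true_and, implies_true, and_assoc]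
  have h2 : ∀ (k m : ℕ) (γ : ℝ), 6 ≤ k → 1 ≤ γ → RatioLe (k + m) γ 1 (Cylindrical k m) := by
    rintro k m γ hk hγ V ⟨v, hv, hVv⟩ hV N
    simp only [hM, one_mul]
    refine Pool.Agent.U615.RR.moment_rad hk (fun _ => True) hγ v hv V ?_ hV N
    intro z
    rw [hVv z]
    have e : ‖(Pool.Agent.U281.CP.Sc k m z).1‖ = √(∑ i : Fin k, z (Fin.castAdd m i) ^ 2) := by
      rw [EuclideanSpace.norm_eq]
      congr 1
      refine Finset.sum_congr rfl fun i _ => ?_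
      rw [Real.norm_eq_abs, sq_abs]
      rfl
    unfold Pool.Agent.U281.CP.ry
    rw [e]
    rfl
  have h1 : ∀ (d : ℕ) (γ : ℝ), 6 ≤ d → 1 ≤ γ → RatioLe d γ 1 (Radial d) := by
    rintro d γ hd hγ V ⟨v, hv, hVv⟩ hV N
    refine h2 d 0 γ hd hγ V ⟨fun p => v p.1, hv.comp measurable_fst, fun z => ?_⟩ hV N
    rw [hVv z]
    rfl
  refine ⟨h1, h2, fun d γ hd hγ hne h => ⟨?_, ?_⟩⟩
  · exact csInf_le ⟨0, fun c hc => hc.1⟩ ⟨zero_le_one, h1 d γ hd hγ⟩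
  · unfold RatioLe at h
    push Not at h
    obtain ⟨V, hVS, hV, N, hlt⟩ := h
    obtain ⟨S, hSdef⟩ : ∃ S, S = ∑ n ∈ Finset.range N, (max (-minMax V n) 0) ^ γ := ⟨_, rfl⟩
    obtain ⟨I, hI⟩ : ∃ I, I = Lcl γ d * ∫ x, (max (-V x) 0) ^ (γ + (d:ℝ) / 2) := ⟨_, rfl⟩
    rw [← hSdef, ← hI, one_mul] at hlt
    have hLcl : 0 ≤ Lcl γ d := by
      have g1 : 0 < Gamma (γ + 1) := Gamma_pos_of_pos (by linarith)
      have g2 : 0 < Gamma (γ + 1 + (d:ℝ) / 2) := Gamma_pos_of_pos (by positivity)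
      unfold Lcl
      positivity
    have hI0 : 0 ≤ I := by
      rw [hI]
      exact mul_nonneg hLcl (integral_nonneg fun x => Real.rpow_nonneg (le_max_right _ _) _)
    have hall : ∀ c : ℝ, RatioLe d γ c Set.univ → S ≤ c * I := by
      intro c hc
      rw [hSdef, hI]
      exact hc V hVS hV N
    obtain ⟨c0, hc0, hc1⟩ := hne
    have hIpos : 0 < I := by
      rcases hI0.eq_or_lt with h0 | h0
      · have := hall c0 hc1
        rw [← h0, mul_zero] at this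
        linarith
      · exact h0
    have hr : 1 < S / I := by
      rw [lt_div_iff₀ hIpos]
      linarith
    refine hr.trans_le (le_csInf ⟨c0, hc0, hc1⟩ ?_)
    rintro c ⟨-, hc⟩
    rw [div_le_iff₀ hIpos]
    exact hall c hc

end Pool.Agent.Results.MP_d5a362_mp.RadialMoments
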